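import Mathlib

/-!
# Characters: Parseval, and the net characters of the data of one node
-/

set_option autoImplicit false

namespace Pool.Agent.Helper41.BT

open Finset

section parseval

variable {P : Type*} [AddCommGroup P] [Fintype P]

theorem norm_sq_char (Ψ : AddChar P ℂ) (p q : P) :
    Ψ p * (starRingEnd ℂ) (Ψ q) = Ψ (p - q) := by
  rw [sub_eq_add_neg, AddChar.map_add_eq_mul, AddChar.map_neg_eq_conj]

/-- Parseval. -/
theorem parseval (g : P → ℂ) :
    ∑ Ψ : AddChar P ℂ, ‖∑ p, Ψ p * g p‖ ^ 2 = Fintype.card P * ∑ p, ‖g p‖ ^ 2 := by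
  classical
  have key : ∑ Ψ : AddChar P ℂ, (∑ p, Ψ p * g p) * (starRingEnd ℂ) (∑ p, Ψ p * g p) =
      Fintype.card P * ∑ p, g p * (starRingEnd ℂ) (g p) := by
    have h1 : ∀ Ψ : AddChar P ℂ, (∑ p, Ψ p * g p) * (starRingEnd ℂ) (∑ p, Ψ p * g p) =
        ∑ p, ∑ q, g p * (starRingEnd ℂ) (g q) * Ψ (p - q) := by
      intro Ψ
      rw [map_sum, Finset.sum_mul_sum]
      refine Finset.sum_congr rfl fun p _ => Finset.sum_congr rfl fun q _ => ?_
      rw [map_mul, ← norm_sq_char]
      ring
    rw [Finset.sum_congr rfl fun Ψ _ => h1 Ψ, Finset.sum_comm, Finset.mul_sum]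
    refine Finset.sum_congr rfl fun p _ => ?_
    rw [Finset.sum_comm]
    have h2 : ∀ q, ∑ Ψ : AddChar P ℂ, g p * (starRingEnd ℂ) (g q) * Ψ (p - q) =
        if q = p then Fintype.card P * (g p * (starRingEnd ℂ) (g p)) else 0 := by
      intro q
      rw [← Finset.mul_sum, AddChar.sum_apply_eq_ite]
      by_cases h : q = p
      · subst h
        simp [mul_comm]
      · have : p - q ≠ 0 := sub_ne_zero.2 (Ne.symm h)
        simp [h, this]
    rw [Finset.sum_congr rfl fun q _ => h2 q, Finset.sum_ite_eq' Finset.univ p]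
    simp
  have h3 : ∀ z : ℂ, z * (starRingEnd ℂ) z = ((‖z‖ ^ 2 : ℝ) : ℂ) := by
    intro z
    rw [Complex.mul_conj, Complex.normSq_eq_norm_sq]
  simp_rw [h3] at key
  exact_mod_cast key

end parseval

section node

variable {K : Type*} [AddCommGroup K] {m : ℕ}

/-- The data of one node: two letters with a character each, or one letter with a character. -/
abbrev Dt (K : Type*) [AddCommGroup K] (m : ℕ) : Type _ :=
  (Fin m × Fin m × AddChar K ℂ × AddChar K ℂ) ⊕ (Fin m × AddChar K ℂ)

/-- The net characters. -/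
noncomputable def net : Dt K m → Fin m → AddChar K ℂ
  | .inl (t, t', χ, χ') => fun s => (if s = t then χ else 0) + (if s = t' then χ' else 0)
  | .inr (t, η) => fun s => if s = t then η else 0

/-- The admissible data. -/
def ok : Dt K m → Prop
  | .inl (t, t', χ, χ') => t ≠ t' ∧ χ ≠ 0 ∧ χ' ≠ 0
  | .inr _ => True

/-- The first letter. -/
def hd : Dt K m → Fin m
  | .inl (t, _, _, _) => t
  | .inr (t, _) => t

/-- The second letter. -/
def sd : Dt K m → Fin m
  | .inl (_, t', _, _) => t'
  | .inr (t, _) => t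

theorem net_eq_zero {F : Dt K m} {s : Fin m} (h1 : s ≠ hd F) (h2 : s ≠ sd F) : net F s = 0 := by
  rcases F with ⟨t, t', χ, χ'⟩ | ⟨t, η⟩
  · simp only [hd, sd] at h1 h2
    simp [net, h1, h2]
  · simp only [hd] at h1
    simp [net, h1]

theorem net_inj {F G : Dt K m} (hF : ok F) (hG : ok G) (h : net F = net G) (h1 : hd F = hd G) :
    F = G := by
  rcases F with ⟨t, t', χ, χ'⟩ | ⟨t, η⟩
  · rcases G with ⟨s, s', θ, θ'⟩ | ⟨s, η'⟩
    · simp only [hd] at h1
      subst h1
      obtain ⟨a1, a2, a3⟩ := hF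
      obtain ⟨b1, b2, b3⟩ := hG
      have e1 := congrFun h t
      simp only [net, if_true, if_neg a1, if_neg b1, add_zero] at e1
      have e2 := congrFun h t'
      simp only [net, if_true, if_neg (Ne.symm a1), zero_add] at e2
      by_cases h3 : t' = s'
      · rw [if_pos h3] at e2
        subst h3
        rw [e1, e2]
      · rw [if_neg h3] at e2
        exact absurd e2 a3
    · exfalso
      simp only [hd] at h1
      subst h1
      obtain ⟨a1, a2, a3⟩ := hF
      have e2 := congrFun h t'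
      simp only [net, if_true, if_neg (Ne.symm a1), zero_add] at e2
      exact a3 e2
  · rcases G with ⟨s, s', θ, θ'⟩ | ⟨s, η'⟩
    · exfalso
      simp only [hd] at h1
      subst h1
      obtain ⟨a1, a2, a3⟩ := hG
      have e2 := congrFun h s'
      simp only [net, if_true, if_neg (Ne.symm a1), zero_add] at e2
      exact a3 e2.symm
    · simp only [hd] at h1
      subst h1
      have e1 := congrFun h t
      simp only [net, if_true] at e1
      rw [e1]

variable {A : Type*} [Fintype A] {P : Type*} [AddCommGroup P]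

/-- The character of `P` given by the data of all nodes. -/
noncomputable def tot (φ : A → Fin m → P →+ K) (F : A → Dt K m) : AddChar P ℂ :=
  ∑ u, ∑ s, (net (F u) s).compAddMonoidHom (φ u s)

theorem tot_apply (φ : A → Fin m → P →+ K) (F : A → Dt K m) (p : P) :
    tot φ F p = ∏ u, ∏ s, net (F u) s (φ u s p) := by
  rw [tot, AddChar.sum_apply]
  refine Finset.prod_congr rfl fun u _ => ?_
  rw [AddChar.sum_apply]
  rfl

/-- Any three letters per node are jointly surjective. -/
def Joint (φ : A → Fin m → P →+ K) : Prop :=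
  ∀ T : A → Finset (Fin m), (∀ u, (T u).card ≤ 3) → ∀ z : A → Fin m → K,
    ∃ p, ∀ u, ∀ t ∈ T u, φ u t p = z u t

theorem tot_inj {φ : A → Fin m → P →+ K} (hφ : Joint φ) {F G : A → Dt K m} (hF : ∀ u, ok (F u))
    (hG : ∀ u, ok (G u)) (h : tot φ F = tot φ G) (h1 : ∀ u, hd (F u) = hd (G u)) : F = G := by
  classical
  funext u
  refine net_inj (hF u) (hG u) ?_ (h1 u)
  funext s
  by_contra hne
  have hne' : net (F u) s - net (G u) s ≠ 0 := sub_ne_zero.2 hne
  obtain ⟨a, ha⟩ := AddChar.ne_zero_iff.1 hne'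
  set T : A → Finset (Fin m) := fun v => {hd (F v), sd (F v), sd (G v)} with hT
  obtain ⟨p, hp⟩ := hφ T (fun v => (Finset.card_insert_le _ _).trans
    (by have := Finset.card_insert_le (sd (F v)) {sd (G v)}; simp at this ⊢; omega))
    (fun v t => if v = u ∧ t = s then a else 0)
  have hzero : ∀ v t, t ∉ T v → net (F v) t = 0 ∧ net (G v) t = 0 := by
    intro v t ht
    simp only [hT, Finset.mem_insert, Finset.mem_singleton, not_or] at ht
    exact ⟨net_eq_zero ht.1 ht.2.1, net_eq_zero (by rw [← h1 v]; exact ht.1) ht.2.2⟩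
  have hs : s ∈ T u := by
    by_contra hs
    obtain ⟨e1, e2⟩ := hzero u s hs
    exact hne (e1.trans e2.symm)
  have e : (tot φ F - tot φ G) p = 1 := by
    rw [h, sub_self, AddChar.zero_apply]
  have e1 : (tot φ F - tot φ G) p = ∏ v, ∏ t, (net (F v) t - net (G v) t) (φ v t p) := by
    rw [AddChar.sub_apply', tot_apply, tot_apply, ← Finset.prod_div_distrib]
    refine Finset.prod_congr rfl fun v _ => ?_
    rw [← Finset.prod_div_distrib]
    refine Finset.prod_congr rfl fun t _ => ?_
    rw [AddChar.sub_apply']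
  have e2 : ∀ v t, (net (F v) t - net (G v) t) (φ v t p) =
      if v = u ∧ t = s then (net (F u) s - net (G u) s) a else 1 := by
    intro v t
    by_cases ht : t ∈ T v
    · rw [hp v t ht]
      by_cases h2 : v = u ∧ t = s
      · rw [if_pos h2, if_pos h2, h2.1, h2.2]
      · rw [if_neg h2, if_neg h2, AddChar.map_zero_eq_one]
    · obtain ⟨e3, e4⟩ := hzero v t ht
      rw [e3, e4, sub_self, AddChar.zero_apply, if_neg]
      rintro ⟨rfl, rfl⟩
      exact ht hs
  rw [e1] at e
  apply ha
  rw [← e]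
  rw [Finset.prod_eq_single u, Finset.prod_eq_single s, e2 u s, if_pos ⟨rfl, rfl⟩]
  · intro t _ ht
    rw [e2 u t, if_neg (fun h => ht h.2)]
  · intro h; exact absurd (Finset.mem_univ _) h
  · intro v _ hv
    exact Finset.prod_eq_one fun t _ => by rw [e2 v t, if_neg (fun h => hv h.1)]
  · intro h; exact absurd (Finset.mem_univ _) h

open Classical in
/-- Bessel for the characters of admissible data: every character occurs at most `m ^ #A` times. -/
theorem bessel [Fintype K] [Fintype P] {φ : A → Fin m → P →+ K} (hφ : Joint φ) (g : P → ℂ)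
    (hg : ∀ p, ‖g p‖ ≤ 1) :
    ∑ F ∈ Finset.univ.filter (fun F : A → Dt K m => ∀ u, ok (F u)), ‖∑ p, tot φ F p * g p‖ ^ 2 ≤
      (m : ℝ) ^ Fintype.card A * (Fintype.card P : ℝ) ^ 2 := by
  have h1 : ∑ F ∈ Finset.univ.filter (fun F : A → Dt K m => ∀ u, ok (F u)),
      ‖∑ p, tot φ F p * g p‖ ^ 2 ≤
      ∑ y : AddChar P ℂ × (A → Fin m), ‖∑ p, y.1 p * g p‖ ^ 2 := by
    have h2 : ∑ F ∈ Finset.univ.filter (fun F : A → Dt K m => ∀ u, ok (F u)),
        ‖∑ p, tot φ F p * g p‖ ^ 2 =
        ∑ y ∈ (Finset.univ.filter (fun F : A → Dt K m => ∀ u, ok (F u))).image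
          (fun F => (tot φ F, fun u => hd (F u))), ‖∑ p, y.1 p * g p‖ ^ 2 := by
      rw [Finset.sum_image]
      intro F hF G hG h
      simp only [Finset.coe_filter, Finset.mem_univ, true_and, Set.mem_ofPred_eq] at hF hG
      rw [Prod.mk.injEq] at h
      exact tot_inj hφ hF hG h.1 (fun u => congrFun h.2 u)
    rw [h2]
    exact Finset.sum_le_sum_of_subset_of_nonneg (Finset.subset_univ _)
      (fun _ _ _ => by positivity)
  refine h1.trans ?_
  rw [Fintype.sum_prod_type]
  simp only [Finset.sum_const, Finset.card_univ, Fintype.card_fun, Fintype.card_fin, nsmul_eq_mul]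
  rw [← Finset.mul_sum, parseval]
  push_cast
  have h3 : ∑ p, ‖g p‖ ^ 2 ≤ (Fintype.card P : ℝ) := by
    calc ∑ p, ‖g p‖ ^ 2 ≤ ∑ _p : P, (1 : ℝ) := Finset.sum_le_sum fun p _ => by
          have := hg p
          have h0 := norm_nonneg (g p)
          nlinarith
      _ = _ := by simp
  have h4 : (0 : ℝ) ≤ (m : ℝ) ^ Fintype.card A := by positivity
  have h5 : (0 : ℝ) ≤ (Fintype.card P : ℝ) := by positivity
  calc (m : ℝ) ^ Fintype.card A * (Fintype.card P * ∑ p, ‖g p‖ ^ 2)
      ≤ (m : ℝ) ^ Fintype.card A * (Fintype.card P * Fintype.card P) := by gcongr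
    _ = _ := by ring

end node

end Pool.Agent.Helper41.BT
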