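import Pool.Agent.Helper41.BT.Char

/-!
# The square of the sum over the letters of one node, expanded in characters
-/

set_option autoImplicit false

namespace Pool.Agent.Helper41.BT

open Finset

variable {K : Type*} [AddCommGroup K] [Fintype K] {m : ℕ}

open Classical in
/-- The coefficients. -/
noncomputable def coef : Dt K m → K → K → ℂ
  | .inl (t, t', χ, χ'), b, b' =>
      if t ≠ t' ∧ χ ≠ 0 ∧ χ' ≠ 0 then χ (-b) * χ' (-b') / (Fintype.card K : ℂ) ^ 2 else 0
  | .inr (_, η), b, b' =>
      (∑ χ : AddChar K ℂ, if χ ≠ 0 ∧ η - χ ≠ 0 then χ (-b) * (η - χ) (-b') else 0) /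
        (Fintype.card K : ℂ) ^ 2

theorem coef_eq_zero {F : Dt K m} (h : ¬ ok F) (b b' : K) : coef F b b' = 0 := by
  rcases F with ⟨t, t', χ, χ'⟩ | ⟨t, η⟩
  · simp only [ok] at h
    simp only [coef, if_neg h]
  · exact absurd trivial h

open Classical in
/-- The bound for the coefficients. -/
noncomputable def bd (K : Type*) [Fintype K] (b b' : K) : ℝ :=
  ((if b = b' then (Fintype.card K : ℝ) else 0) + 2) / (Fintype.card K : ℝ) ^ 2

theorem bd_nonneg (b b' : K) : 0 ≤ bd K b b' := by
  unfold bd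
  split_ifs <;> positivity

theorem sum_bd : ∑ b, ∑ b', bd K b b' = 3 := by
  classical
  have hk : (Fintype.card K : ℝ) ≠ 0 := Nat.cast_ne_zero.2 Fintype.card_ne_zero
  unfold bd
  simp_rw [← Finset.sum_div, Finset.sum_add_distrib]
  simp only [Finset.sum_ite_eq, Finset.mem_univ, if_true, Finset.sum_const, Finset.card_univ,
    nsmul_eq_mul]
  field_simp
  ring

theorem norm_coef_le (F : Dt K m) (b b' : K) : ‖coef F b b'‖ ≤ bd K b b' := by
  classical
  have hk : (0 : ℝ) < (Fintype.card K : ℝ) := Nat.cast_pos.2 Fintype.card_pos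
  rcases F with ⟨t, t', χ, χ'⟩ | ⟨t, η⟩
  · simp only [coef]
    have h1 : (1 : ℝ) / (Fintype.card K : ℝ) ^ 2 ≤ bd K b b' := by
      unfold bd
      refine div_le_div_of_nonneg_right ?_ (by positivity)
      split_ifs <;> linarith
    split_ifs
    · rw [norm_div, norm_mul, AddChar.norm_apply, AddChar.norm_apply, norm_pow, Complex.norm_natCast,
        mul_one]
      exact h1
    · rw [norm_zero]
      exact bd_nonneg _ _
  · simp only [coef]
    rw [norm_div, norm_pow, Complex.norm_natCast]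
    unfold bd
    refine div_le_div_of_nonneg_right ?_ (by positivity)
    have h1 : ∀ χ : AddChar K ℂ, χ (-b) * (η - χ) (-b') = η (-b') * χ (b' - b) := by
      intro χ
      rw [AddChar.sub_apply', sub_eq_add_neg, AddChar.map_add_eq_mul χ b' (-b),
        AddChar.map_neg_eq_inv χ b']
      have : χ b' ≠ 0 := by
        intro h0
        have := AddChar.norm_apply χ b'
        rw [h0, norm_zero] at this
        exact zero_ne_one this
      field_simp
    have h2 : (∑ χ : AddChar K ℂ, if χ ≠ 0 ∧ η - χ ≠ 0 then χ (-b) * (η - χ) (-b') else 0) =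
        (∑ χ : AddChar K ℂ, η (-b') * χ (b' - b)) -
          ∑ χ : AddChar K ℂ, if ¬ (χ ≠ 0 ∧ η - χ ≠ 0) then η (-b') * χ (b' - b) else 0 := by
      rw [← Finset.sum_sub_distrib]
      refine Finset.sum_congr rfl fun χ _ => ?_
      rw [h1]
      by_cases h : χ ≠ 0 ∧ η - χ ≠ 0
      · rw [if_pos h, if_neg (not_not.2 h), sub_zero]
      · rw [if_neg h, if_pos h, sub_self]
    rw [h2]
    refine (norm_sub_le _ _).trans (add_le_add ?_ ?_)
    · rw [← Finset.mul_sum, AddChar.sum_apply_eq_ite, norm_mul, AddChar.norm_apply, one_mul]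
      by_cases h : b = b'
      · rw [if_pos h, if_pos (by rw [h, sub_self]), Complex.norm_natCast]
      · rw [if_neg h, if_neg (sub_ne_zero.2 (Ne.symm h)), norm_zero]
    · rw [← Finset.sum_filter]
      refine (norm_sum_le _ _).trans ?_
      have h3 : ∀ χ ∈ Finset.univ.filter (fun χ : AddChar K ℂ => ¬ (χ ≠ 0 ∧ η - χ ≠ 0)),
          ‖η (-b') * χ (b' - b)‖ ≤ 1 := by
        intro χ _
        rw [norm_mul, AddChar.norm_apply, AddChar.norm_apply, one_mul]
      refine (Finset.sum_le_card_nsmul _ _ _ h3).trans ?_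
      rw [nsmul_eq_mul, mul_one]
      have h4 : (Finset.univ.filter (fun χ : AddChar K ℂ => ¬ (χ ≠ 0 ∧ η - χ ≠ 0))) ⊆ {0, η} := by
        intro χ hχ
        simp only [Finset.mem_filter, Finset.mem_univ, true_and, not_and_or, not_not] at hχ
        rw [Finset.mem_insert, Finset.mem_singleton]
        rcases hχ with h | h
        · exact Or.inl h
        · exact Or.inr (sub_eq_zero.1 h).symm
      have h5 := (Finset.card_le_card h4).trans Finset.card_le_two
      exact_mod_cast h5

theorem delta_eq (β b : K) [Decidable (β = b)] :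
    ((if β = b then 1 else 0 : ℂ) - 1 / Fintype.card K) =
      (∑ χ : AddChar K ℂ, open Classical in if χ ≠ 0 then χ (β - b) else 0) / Fintype.card K := by
  classical
  have hk : (Fintype.card K : ℂ) ≠ 0 := Nat.cast_ne_zero.2 Fintype.card_ne_zero
  have h1 : (∑ χ : AddChar K ℂ, if χ ≠ 0 then χ (β - b) else 0) =
      (∑ χ : AddChar K ℂ, χ (β - b)) - 1 := by
    have : ∀ χ : AddChar K ℂ, (if χ ≠ 0 then χ (β - b) else 0) =
        χ (β - b) - if χ = 0 then 1 else 0 := by
      intro χ
      by_cases h : χ = 0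
      · simp [h]
      · simp [h]
    rw [Finset.sum_congr rfl fun χ _ => this χ, Finset.sum_sub_distrib, Finset.sum_ite_eq']
    simp
  rw [h1, AddChar.sum_apply_eq_ite]
  by_cases h : β = b
  · rw [if_pos h, if_pos (sub_eq_zero.2 h)]
    field_simp
  · rw [if_neg h, if_neg (sub_ne_zero.2 h)]
    ring

omit [Fintype K] in
theorem prod_net_inl (t t' : Fin m) (χ χ' : AddChar K ℂ) (β : Fin m → K) :
    ∏ s, net (.inl (t, t', χ, χ') : Dt K m) s (β s) = χ (β t) * χ' (β t') := by
  have h : ∀ (t : Fin m) (χ : AddChar K ℂ), ∏ s, (if s = t then χ else 0) (β s) = χ (β t) := by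
    intro t χ
    rw [Finset.prod_eq_single t]
    · rw [if_pos rfl]
    · intro s _ hs
      rw [if_neg hs, AddChar.zero_apply]
    · intro h; exact absurd (Finset.mem_univ _) h
  simp only [net, AddChar.add_apply]
  rw [Finset.prod_mul_distrib, h, h]

omit [Fintype K] in
theorem prod_net_inr (t : Fin m) (η : AddChar K ℂ) (β : Fin m → K) :
    ∏ s, net (.inr (t, η) : Dt K m) s (β s) = η (β t) := by
  simp only [net]
  rw [Finset.prod_eq_single t]
  · rw [if_pos rfl]
  · intro s _ hs
    rw [if_neg hs, AddChar.zero_apply]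
  · intro h; exact absurd (Finset.mem_univ _) h

open Classical in
/-- The product of two sums over the letters. -/
theorem prod_eq (β : Fin m → K) (b b' : K) :
    (∑ t, ((if β t = b then 1 else 0 : ℂ) - 1 / Fintype.card K)) *
      (∑ t, ((if β t = b' then 1 else 0 : ℂ) - 1 / Fintype.card K)) =
    ∑ F : Dt K m, coef F b b' * ∏ s, net F s (β s) := by
  set k : ℂ := (Fintype.card K : ℂ) with hk
  set term : Fin m → Fin m → ℂ := fun t t' => ∑ χ : AddChar K ℂ, ∑ χ' : AddChar K ℂ,
    if χ ≠ 0 ∧ χ' ≠ 0 then χ (β t - b) * χ' (β t' - b') / k ^ 2 else 0 with hterm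
  have h1 : (∑ t, ((if β t = b then 1 else 0 : ℂ) - 1 / k)) *
      (∑ t, ((if β t = b' then 1 else 0 : ℂ) - 1 / k)) = ∑ t, ∑ t', term t t' := by
    rw [Finset.sum_mul_sum]
    refine Finset.sum_congr rfl fun t _ => Finset.sum_congr rfl fun t' _ => ?_
    rw [delta_eq, delta_eq, div_mul_div_comm, Finset.sum_mul_sum, Finset.sum_div, hterm]
    refine Finset.sum_congr rfl fun χ _ => ?_
    rw [Finset.sum_div]
    refine Finset.sum_congr rfl fun χ' _ => ?_
    by_cases h1 : χ ≠ 0
    · by_cases h2 : χ' ≠ 0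
      · rw [if_pos h1, if_pos h2, if_pos ⟨h1, h2⟩, ← hk, sq]
      · rw [if_neg h2, if_neg (fun h : χ ≠ 0 ∧ χ' ≠ 0 => h2 h.2), mul_zero, zero_div]
    · rw [if_neg h1, if_neg (fun h : χ ≠ 0 ∧ χ' ≠ 0 => h1 h.1), zero_mul, zero_div]
  have h2 : ∑ F : Fin m × Fin m × AddChar K ℂ × AddChar K ℂ,
      coef (.inl F : Dt K m) b b' * ∏ s, net (.inl F : Dt K m) s (β s) =
      ∑ t, ∑ t', if t ≠ t' then term t t' else 0 := by
    rw [Fintype.sum_prod_type]
    refine Finset.sum_congr rfl fun t _ => ?_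
    rw [Fintype.sum_prod_type]
    refine Finset.sum_congr rfl fun t' _ => ?_
    rw [Fintype.sum_prod_type]
    by_cases h : t ≠ t'
    · rw [if_pos h, hterm]
      refine Finset.sum_congr rfl fun χ _ => Finset.sum_congr rfl fun χ' _ => ?_
      rw [prod_net_inl]
      simp only [coef]
      by_cases h3 : χ ≠ 0 ∧ χ' ≠ 0
      · rw [if_pos ⟨h, h3⟩, if_pos h3, sub_eq_add_neg, sub_eq_add_neg, AddChar.map_add_eq_mul,
          AddChar.map_add_eq_mul, ← hk]
        ring
      · rw [if_neg (fun h4 => h3 h4.2), if_neg h3, zero_mul]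
    · rw [if_neg h]
      refine Finset.sum_eq_zero fun χ _ => Finset.sum_eq_zero fun χ' _ => ?_
      simp only [coef]
      rw [if_neg (fun h4 => h h4.1), zero_mul]
  have h3 : ∑ F : Fin m × AddChar K ℂ,
      coef (.inr F : Dt K m) b b' * ∏ s, net (.inr F : Dt K m) s (β s) = ∑ t, term t t := by
    rw [Fintype.sum_prod_type]
    refine Finset.sum_congr rfl fun t _ => ?_
    have h4 : ∀ η : AddChar K ℂ, coef (.inr (t, η) : Dt K m) b b' *
        ∏ s, net (.inr (t, η) : Dt K m) s (β s) = ∑ χ : AddChar K ℂ,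
          (if χ ≠ 0 ∧ η - χ ≠ 0 then χ (β t - b) * (η - χ) (β t - b') / k ^ 2 else 0) := by
      intro η
      rw [prod_net_inr]
      simp only [coef]
      rw [div_mul_eq_mul_div, Finset.sum_mul, Finset.sum_div]
      refine Finset.sum_congr rfl fun χ _ => ?_
      by_cases h5 : χ ≠ 0 ∧ η - χ ≠ 0
      · rw [if_pos h5, if_pos h5, sub_eq_add_neg (β t), sub_eq_add_neg (β t),
          AddChar.map_add_eq_mul, AddChar.map_add_eq_mul, ← hk]
        have h6 : η (β t) = χ (β t) * (η - χ) (β t) := by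
          rw [← AddChar.add_apply, add_sub_cancel]
        rw [h6]
        ring
      · rw [if_neg h5, if_neg h5, zero_mul, zero_div]
    rw [Finset.sum_congr rfl fun η _ => h4 η, Finset.sum_comm, hterm]
    refine Finset.sum_congr rfl fun χ _ => ?_
    exact (Equiv.subRight χ).sum_comp (fun χ' => if χ ≠ 0 ∧ χ' ≠ 0 then
      χ (β t - b) * χ' (β t - b') / k ^ 2 else 0)
  rw [Fintype.sum_sum_type, h1, h2, h3, ← Finset.sum_add_distrib]
  refine Finset.sum_congr rfl fun t _ => ?_
  have h5 : ∀ t', (if t ≠ t' then term t t' else 0) = term t t' - if t = t' then term t t' else 0 := by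
    intro t'
    by_cases h : t = t'
    · simp [h]
    · simp [h]
  rw [Finset.sum_congr rfl fun t' _ => h5 t', Finset.sum_sub_distrib, Finset.sum_ite_eq]
  simp

end Pool.Agent.Helper41.BT
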