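import Pool.Agent.Helper41.BT.Moment

/-!
# Counting the inputs for which many nodes are full
-/

set_option autoImplicit false
set_option linter.unusedSectionVars false

namespace Pool.Agent.Helper41.BT

open Finset

variable {K P Q A Λ : Type*} [AddCommGroup K] [Fintype K] [AddCommGroup P] [Fintype P] [AddCommGroup Q]
  [Fintype Q] [Fintype A] [Fintype Λ] {m : ℕ}

theorem part_le_one (V : Set (K × Λ)) (b : K) : part V b ≤ 1 := by
  classical
  unfold part
  have h1 : Nat.card {l : Λ // (b, l) ∈ V} ≤ Fintype.card Λ := by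
    rw [Nat.card_eq_fintype_card]
    exact Fintype.card_subtype_le _
  exact div_le_one_of_le₀ (by exact_mod_cast h1) (Nat.cast_nonneg _)

/-- If at most `e` letters have at least `h` positions in `V` in their block. -/
theorem sum_part_le (V : Set (K × Λ)) (β : Fin m → K) (h e : ℕ)
    (he : (open Classical in univ.filter (fun t => h ≤ Nat.card {l : Λ // (β t, l) ∈ V})).card ≤ e) :
    ∑ t, part V (β t) ≤ e + m * (h / Fintype.card Λ) := by
  classical
  have h1 : ∀ t, part V (β t) ≤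
      (if h ≤ Nat.card {l : Λ // (β t, l) ∈ V} then 1 else 0) + h / Fintype.card Λ := by
    intro t
    split_ifs with h2
    · have := part_le_one V (β t)
      have h3 : (0 : ℝ) ≤ h / Fintype.card Λ := by positivity
      linarith
    · rw [zero_add]
      unfold part
      push Not at h2
      exact div_le_div_of_nonneg_right (by exact_mod_cast h2.le) (Nat.cast_nonneg _)
  refine (Finset.sum_le_sum fun t _ => h1 t).trans ?_
  rw [Finset.sum_add_distrib, Finset.sum_boole, Finset.sum_const, Finset.card_univ,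
    Fintype.card_fin, nsmul_eq_mul]
  have : ((univ.filter (fun t => h ≤ Nat.card {l : Λ // (β t, l) ∈ V})).card : ℝ) ≤ e := by
    exact_mod_cast he
  linarith

/-- At most the part `(12 / (m r ^ 2)) ^ #A` of the pairs is bad. -/
theorem count_le [Nonempty Λ] {φ : A → Fin m → P →+ K} {ψ : A → Fin m → Q →+ K} (hφ : Joint φ)
    (hψ : Joint ψ) (x : A → Fin m → K) (V : Q → Set (K × Λ)) (V' : P → Set (K × Λ)) {r : ℝ}
    (hm : 0 < m) (hr : 0 < r) (B : Set (P × Q))
    (hB : ∀ y ∈ B, r ≤ dens (V y.2 ∩ V' y.1) ∧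
      ∀ u, ∑ t, part (V y.2 ∩ V' y.1) (letter φ ψ x y.1 y.2 u t) ≤ m * r / 2) :
    (Nat.card B : ℝ) ≤ (12 / (m * r ^ 2)) ^ Fintype.card A * (Fintype.card P * Fintype.card Q) := by
  classical
  have hm' : (0 : ℝ) < m := Nat.cast_pos.2 hm
  set f : P × Q → ℝ := fun y => ∏ u, (∑ t, (part (V y.2 ∩ V' y.1) (letter φ ψ x y.1 y.2 u t) -
    dens (V y.2 ∩ V' y.1))) ^ 2 with hf
  have hf0 : ∀ y, 0 ≤ f y := fun y => Finset.prod_nonneg fun _ _ => sq_nonneg _
  have h1 : ∀ y ∈ B, ((m * r / 2) ^ 2) ^ Fintype.card A ≤ f y := by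
    intro y hy
    rw [hf, ← Finset.card_univ, ← Finset.prod_const]
    refine Finset.prod_le_prod (fun _ _ => by positivity) fun u _ => ?_
    obtain ⟨h2, h3⟩ := hB y hy
    have h4 := h3 u
    have h5 : ∑ t, (part (V y.2 ∩ V' y.1) (letter φ ψ x y.1 y.2 u t) - dens (V y.2 ∩ V' y.1)) =
        (∑ t, part (V y.2 ∩ V' y.1) (letter φ ψ x y.1 y.2 u t)) - m * dens (V y.2 ∩ V' y.1) := by
      rw [Finset.sum_sub_distrib, Finset.sum_const, Finset.card_univ, Fintype.card_fin,
        nsmul_eq_mul]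
    have h6 : m * r ≤ m * dens (V y.2 ∩ V' y.1) := mul_le_mul_of_nonneg_left h2 hm'.le
    rw [h5]
    have h7 : m * r / 2 ≤ -((∑ t, part (V y.2 ∩ V' y.1) (letter φ ψ x y.1 y.2 u t)) -
        m * dens (V y.2 ∩ V' y.1)) := by linarith
    have h8 : (0 : ℝ) ≤ m * r / 2 := by positivity
    rw [← neg_sq ((∑ t, part (V y.2 ∩ V' y.1) (letter φ ψ x y.1 y.2 u t)) -
        m * dens (V y.2 ∩ V' y.1))]
    exact pow_le_pow_left₀ h8 h7 2
  have h2 : (Nat.card B : ℝ) * ((m * r / 2) ^ 2) ^ Fintype.card A ≤ ∑ y, f y := by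
    have h3 : (Nat.card B : ℝ) * ((m * r / 2) ^ 2) ^ Fintype.card A =
        ∑ _y ∈ univ.filter (· ∈ B), ((m * r / 2) ^ 2) ^ Fintype.card A := by
      rw [Finset.sum_const, nsmul_eq_mul, Nat.card_eq_fintype_card, Fintype.card_subtype]
    rw [h3]
    refine (Finset.sum_le_sum fun y hy => h1 y (Finset.mem_filter.1 hy).2).trans ?_
    exact Finset.sum_le_sum_of_subset_of_nonneg (Finset.subset_univ _) fun y _ _ => hf0 y
  have h3 : ∑ y, f y ≤ (3 * m : ℝ) ^ Fintype.card A * (Fintype.card P * Fintype.card Q) := by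
    rw [Fintype.sum_prod_type]
    exact second_moment x V V' hφ hψ
  have h4 : (0 : ℝ) < ((m * r / 2) ^ 2) ^ Fintype.card A := by positivity
  have h5 := (h2.trans h3)
  rw [← le_div_iff₀ h4] at h5
  refine h5.trans (le_of_eq ?_)
  rw [mul_comm, mul_div_assoc, ← div_pow, mul_comm]
  congr 2
  field_simp
  ring

end Pool.Agent.Helper41.BT
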