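import Pool.Agent.Helper41.BT.Coef

/-!
# The second moment

`β u t = x u t + φ u t p + ψ u t q` are the letters `t` of the nodes `u`; the open positions are the elements of
`V q ∩ V' p`. On the average over `p` and `q` the product over `u` of the squares of
`∑ t, (part of open positions in the block β u t - part of all open positions)` is at most `(3 m) ^ #A`.
-/

set_option autoImplicit false
set_option linter.unusedSectionVars false

namespace Pool.Agent.Helper41.BT

open Finset

variable {K P Q A Λ : Type*} [AddCommGroup K] [Fintype K] [AddCommGroup P] [Fintype P] [AddCommGroup Q]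
  [Fintype Q] [Fintype A] [Fintype Λ] {m : ℕ}

open Classical in
/-- The indicator function. -/
noncomputable def ind {α : Type*} (V : Set α) (z : α) : ℂ := if z ∈ V then 1 else 0

theorem norm_ind_le {α : Type*} (V : Set α) (z : α) : ‖ind V z‖ ≤ 1 := by
  unfold ind
  split_ifs <;> simp

theorem ind_inter {α : Type*} (V V' : Set α) (z : α) : ind (V ∩ V') z = ind V z * ind V' z := by
  classical
  unfold ind
  by_cases h : z ∈ V <;> by_cases h' : z ∈ V' <;> simp [h, h']

theorem card_eq_sum {α : Type*} [Fintype α] (V : Set α) : (Nat.card V : ℂ) = ∑ z, ind V z := by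
  classical
  unfold ind
  rw [Finset.sum_boole, Nat.card_eq_fintype_card, Fintype.card_subtype]

omit [AddCommGroup K] in
theorem card_block_eq (V : Set (K × Λ)) (b : K) :
    (Nat.card {l : Λ // (b, l) ∈ V} : ℂ) = ∑ z : K × Λ, (open Classical in if b = z.1 then 1 else 0) * ind V z := by
  classical
  rw [Fintype.sum_prod_type]
  simp only
  rw [Finset.sum_eq_single b]
  · have : {l : Λ // (b, l) ∈ V} = ({l : Λ | (b, l) ∈ V} : Set Λ) := rfl
    rw [this, card_eq_sum]
    refine Finset.sum_congr rfl fun l _ => ?_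
    rw [if_pos rfl, one_mul]
    rfl
  · intro c _ hc
    refine Finset.sum_eq_zero fun l _ => ?_
    rw [if_neg (Ne.symm hc), zero_mul]
  · intro h; exact absurd (Finset.mem_univ _) h

/-- The part of the positions of the block `b` in `V`. -/
noncomputable def part (V : Set (K × Λ)) (b : K) : ℝ :=
  (Nat.card {l : Λ // (b, l) ∈ V} : ℝ) / Fintype.card Λ

/-- The part of all positions in `V`. -/
noncomputable def dens (V : Set (K × Λ)) : ℝ := (Nat.card V : ℝ) / (Fintype.card K * Fintype.card Λ)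

theorem sum_part (V : Set (K × Λ)) (β : Fin m → K) :
    ((∑ t, (part V (β t) - dens V) : ℝ) : ℂ) = (∑ z : K × Λ, ind V z *
      ∑ t, ((open Classical in if β t = z.1 then 1 else 0 : ℂ) - 1 / Fintype.card K)) /
      Fintype.card Λ := by
  classical
  have h1 : ∀ t, ((part V (β t) - dens V : ℝ) : ℂ) = (∑ z : K × Λ, ind V z *
      ((if β t = z.1 then 1 else 0 : ℂ) - 1 / Fintype.card K)) / Fintype.card Λ := by
    intro t
    have hs : ∑ z : K × Λ, ind V z * ((if β t = z.1 then 1 else 0 : ℂ) - 1 / Fintype.card K) =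
        (∑ z : K × Λ, (if β t = z.1 then 1 else 0 : ℂ) * ind V z) -
          (∑ z : K × Λ, ind V z) / Fintype.card K := by
      rw [Finset.sum_div, ← Finset.sum_sub_distrib]
      refine Finset.sum_congr rfl fun z _ => ?_
      ring
    rw [hs, ← card_block_eq, ← card_eq_sum]
    unfold part dens
    push_cast
    rw [sub_div, div_div]
  rw [Complex.ofReal_sum, Finset.sum_congr rfl fun t _ => h1 t, ← Finset.sum_div,
    Finset.sum_comm]
  congr 1
  refine Finset.sum_congr rfl fun z _ => ?_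
  rw [Finset.mul_sum]

theorem sq_sum_part (V V' : Set (K × Λ)) (β : Fin m → K) :
    (((∑ t, (part (V ∩ V') (β t) - dens (V ∩ V'))) ^ 2 : ℝ) : ℂ) =
      ∑ j : (K × Λ) × (K × Λ), ∑ F : Dt K m, (ind V' j.1 * ind V' j.2) * (ind V j.1 * ind V j.2) *
        (coef F j.1.1 j.2.1 * ∏ s, net F s (β s)) / (Fintype.card Λ : ℂ) ^ 2 := by
  classical
  refine Eq.trans ?_ (Fintype.sum_prod_type _).symm
  rw [sq, Complex.ofReal_mul, sum_part, div_mul_div_comm, Finset.sum_mul_sum, Finset.sum_div]
  refine Finset.sum_congr rfl fun z _ => ?_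
  rw [Finset.sum_div]
  refine Finset.sum_congr rfl fun z' _ => ?_
  have h1 : ∀ F : Dt K m, (ind V' z * ind V' z') * (ind V z * ind V z') *
      (coef F z.1 z'.1 * ∏ s, net F s (β s)) / (Fintype.card Λ : ℂ) ^ 2 =
      ((ind V' z * ind V' z') * (ind V z * ind V z') / (Fintype.card Λ : ℂ) ^ 2) *
        (coef F z.1 z'.1 * ∏ s, net F s (β s)) := by
    intro F
    ring
  rw [Finset.sum_congr rfl fun F _ => h1 F, ← Finset.mul_sum, ← prod_eq, ind_inter, ind_inter, sq]
  ring

section main

variable (φ : A → Fin m → P →+ K) (ψ : A → Fin m → Q →+ K) (x : A → Fin m → K)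
  (V : Q → Set (K × Λ)) (V' : P → Set (K × Λ))

/-- The letters. -/
def letter (p : P) (q : Q) (u : A) (t : Fin m) : K := x u t + φ u t p + ψ u t q

theorem prod_net_letter (F : A → Dt K m) (p : P) (q : Q) :
    ∏ u, ∏ s, net (F u) s (letter φ ψ x p q u s) =
      (∏ u, ∏ s, net (F u) s (x u s)) * (tot φ F p * tot ψ F q) := by
  rw [tot_apply, tot_apply, ← Finset.prod_mul_distrib, ← Finset.prod_mul_distrib]
  refine Finset.prod_congr rfl fun u _ => ?_
  rw [← Finset.prod_mul_distrib, ← Finset.prod_mul_distrib]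
  refine Finset.prod_congr rfl fun s _ => ?_
  rw [letter, AddChar.map_add_eq_mul, AddChar.map_add_eq_mul, mul_assoc]

open Classical in
/-- The expansion of the product. -/
theorem expand (p : P) (q : Q) :
    ((∏ u, (∑ t, (part (V q ∩ V' p) (letter φ ψ x p q u t) - dens (V q ∩ V' p))) ^ 2 : ℝ) : ℂ) =
      ∑ j : A → (K × Λ) × (K × Λ), ∑ F : A → Dt K m,
        ((∏ u, coef (F u) (j u).1.1 (j u).2.1) * (∏ u, ∏ s, net (F u) s (x u s)) /
          ((Fintype.card Λ : ℂ) ^ 2) ^ Fintype.card A) *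
        ((tot φ F p * ∏ u, (ind (V' p) (j u).1 * ind (V' p) (j u).2)) *
          (tot ψ F q * ∏ u, (ind (V q) (j u).1 * ind (V q) (j u).2))) := by
  classical
  rw [Complex.ofReal_prod, Finset.prod_congr rfl fun u _ => sq_sum_part (V q) (V' p) _,
    Finset.prod_univ_sum, Fintype.piFinset_univ]
  refine Finset.sum_congr rfl fun j _ => ?_
  rw [Finset.prod_univ_sum, Fintype.piFinset_univ]
  refine Finset.sum_congr rfl fun F _ => ?_
  simp only [Finset.prod_div_distrib, Finset.prod_mul_distrib, Finset.prod_const,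
    Finset.card_univ]
  rw [prod_net_letter]
  ring

variable {φ ψ}

open Classical in
theorem cs {φ : A → Fin m → P →+ K} {ψ : A → Fin m → Q →+ K} (hφ : Joint φ) (hψ : Joint ψ)
    (g : P → ℂ) (hg : ∀ p, ‖g p‖ ≤ 1) (f : Q → ℂ) (hf : ∀ q, ‖f q‖ ≤ 1) :
    ∑ F ∈ Finset.univ.filter (fun F : A → Dt K m => ∀ u, ok (F u)),
      ‖∑ p, tot φ F p * g p‖ * ‖∑ q, tot ψ F q * f q‖ ≤
      (m : ℝ) ^ Fintype.card A * (Fintype.card P * Fintype.card Q) := by
  have h1 := bessel hφ g hg
  have h2 := bessel hψ f hf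
  have h3 := Finset.sum_mul_sq_le_sq_mul_sq
    (Finset.univ.filter (fun F : A → Dt K m => ∀ u, ok (F u)))
    (fun F => ‖∑ p, tot φ F p * g p‖) (fun F => ‖∑ q, tot ψ F q * f q‖)
  have h4 : (0 : ℝ) ≤ ∑ F ∈ Finset.univ.filter (fun F : A → Dt K m => ∀ u, ok (F u)),
      ‖∑ p, tot φ F p * g p‖ * ‖∑ q, tot ψ F q * f q‖ :=
    Finset.sum_nonneg fun _ _ => by positivity
  have h5 : (0 : ℝ) ≤ (m : ℝ) ^ Fintype.card A * (Fintype.card P * Fintype.card Q) := by
    positivity
  rw [← pow_le_pow_iff_left₀ h4 h5 two_ne_zero]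
  refine h3.trans ((mul_le_mul h1 h2 (Finset.sum_nonneg fun _ _ => by positivity)
    (by positivity)).trans (le_of_eq ?_))
  ring

/-- THE SECOND MOMENT. -/
theorem second_moment [Nonempty Λ] (hφ : Joint φ) (hψ : Joint ψ) :
    ∑ p, ∑ q, ∏ u, (∑ t, (part (V q ∩ V' p) (letter φ ψ x p q u t) - dens (V q ∩ V' p))) ^ 2 ≤
      (3 * m : ℝ) ^ Fintype.card A * (Fintype.card P * Fintype.card Q) := by
  classical
  have hL : (0 : ℝ) < (Fintype.card Λ : ℝ) := Nat.cast_pos.2 Fintype.card_pos
  set S : ℝ := ∑ p, ∑ q, ∏ u,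
    (∑ t, (part (V q ∩ V' p) (letter φ ψ x p q u t) - dens (V q ∩ V' p))) ^ 2 with hS
  have hS0 : 0 ≤ S := Finset.sum_nonneg fun _ _ => Finset.sum_nonneg fun _ _ =>
    Finset.prod_nonneg fun _ _ => sq_nonneg _
  set c : (A → (K × Λ) × (K × Λ)) → (A → Dt K m) → ℂ := fun j F =>
    (∏ u, coef (F u) (j u).1.1 (j u).2.1) * (∏ u, ∏ s, net (F u) s (x u s)) /
          ((Fintype.card Λ : ℂ) ^ 2) ^ Fintype.card A with hc
  set G : (A → (K × Λ) × (K × Λ)) → P → ℂ := fun j p =>
    ∏ u, (ind (V' p) (j u).1 * ind (V' p) (j u).2) with hG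
  set H : (A → (K × Λ) × (K × Λ)) → Q → ℂ := fun j q =>
    ∏ u, (ind (V q) (j u).1 * ind (V q) (j u).2) with hH
  have e1 : (S : ℂ) = ∑ j, ∑ F, c j F * ((∑ p, tot φ F p * G j p) * (∑ q, tot ψ F q * H j q)) := by
    rw [hS, Complex.ofReal_sum]
    simp_rw [Complex.ofReal_sum, expand]
    calc ∑ p, ∑ q, ∑ j, ∑ F, c j F * ((tot φ F p * G j p) * (tot ψ F q * H j q))
        = ∑ p, ∑ j, ∑ F, ∑ q, c j F * ((tot φ F p * G j p) * (tot ψ F q * H j q)) := by
          refine Finset.sum_congr rfl fun p _ => ?_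
          rw [Finset.sum_comm]
          exact Finset.sum_congr rfl fun j _ => Finset.sum_comm
      _ = ∑ j, ∑ F, ∑ p, ∑ q, c j F * ((tot φ F p * G j p) * (tot ψ F q * H j q)) := by
          rw [Finset.sum_comm]
          exact Finset.sum_congr rfl fun j _ => Finset.sum_comm
      _ = _ := by
          refine Finset.sum_congr rfl fun j _ => Finset.sum_congr rfl fun F _ => ?_
          rw [Finset.sum_mul_sum, Finset.mul_sum]
          refine Finset.sum_congr rfl fun p _ => ?_
          rw [Finset.mul_sum]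
  have hG1 : ∀ j p, ‖G j p‖ ≤ 1 := by
    intro j p
    rw [hG]
    simp only
    rw [norm_prod]
    refine Finset.prod_le_one (fun _ _ => norm_nonneg _) fun u _ => ?_
    rw [norm_mul]
    exact mul_le_one₀ (norm_ind_le _ _) (norm_nonneg _) (norm_ind_le _ _)
  have hH1 : ∀ j q, ‖H j q‖ ≤ 1 := by
    intro j q
    rw [hH]
    simp only
    rw [norm_prod]
    refine Finset.prod_le_one (fun _ _ => norm_nonneg _) fun u _ => ?_
    rw [norm_mul]
    exact mul_le_one₀ (norm_ind_le _ _) (norm_nonneg _) (norm_ind_le _ _)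
  set B : (A → (K × Λ) × (K × Λ)) → ℝ := fun j =>
    (∏ u, bd K (j u).1.1 (j u).2.1) / ((Fintype.card Λ : ℝ) ^ 2) ^ Fintype.card A with hB
  have hB0 : ∀ j, 0 ≤ B j := fun j =>
    div_nonneg (Finset.prod_nonneg fun _ _ => bd_nonneg _ _) (by positivity)
  have hc1 : ∀ j F, ‖c j F‖ ≤ B j := by
    intro j F
    rw [hc, hB]
    simp only
    rw [norm_div, norm_mul, norm_prod, norm_prod]
    have e2 : ∏ u, ‖∏ s, net (F u) s (x u s)‖ = 1 := by
      refine Finset.prod_eq_one fun u _ => ?_
      rw [norm_prod]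
      exact Finset.prod_eq_one fun s _ => AddChar.norm_apply _ _
    rw [e2, mul_one, norm_pow, norm_pow, Complex.norm_natCast]
    refine div_le_div_of_nonneg_right ?_ (by positivity)
    exact Finset.prod_le_prod (fun _ _ => norm_nonneg _) fun u _ => norm_coef_le _ _ _
  have hc0 : ∀ j F, ¬ (∀ u, ok (F u)) → c j F = 0 := by
    intro j F h
    push Not at h
    obtain ⟨u, hu⟩ := h
    rw [hc]
    simp only
    rw [Finset.prod_eq_zero (Finset.mem_univ u) (coef_eq_zero hu _ _), zero_mul, zero_div]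
  have e3 : S ≤ ∑ j, B j * ((m : ℝ) ^ Fintype.card A * (Fintype.card P * Fintype.card Q)) := by
    calc S = ‖(S : ℂ)‖ := by rw [Complex.norm_real, Real.norm_of_nonneg hS0]
      _ ≤ ∑ j, ‖∑ F, c j F * ((∑ p, tot φ F p * G j p) * (∑ q, tot ψ F q * H j q))‖ := by
          rw [e1]; exact norm_sum_le _ _
      _ ≤ _ := by
          refine Finset.sum_le_sum fun j _ => ?_
          have e4 : ∑ F, c j F * ((∑ p, tot φ F p * G j p) * (∑ q, tot ψ F q * H j q)) =
              ∑ F ∈ Finset.univ.filter (fun F : A → Dt K m => ∀ u, ok (F u)),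
                c j F * ((∑ p, tot φ F p * G j p) * (∑ q, tot ψ F q * H j q)) := by
            rw [Finset.sum_filter]
            refine Finset.sum_congr rfl fun F _ => ?_
            by_cases h : ∀ u, ok (F u)
            · rw [if_pos h]
            · rw [if_neg h, hc0 j F h, zero_mul]
          rw [e4]
          calc ‖∑ F ∈ Finset.univ.filter (fun F : A → Dt K m => ∀ u, ok (F u)),
                c j F * ((∑ p, tot φ F p * G j p) * (∑ q, tot ψ F q * H j q))‖
              ≤ ∑ F ∈ Finset.univ.filter (fun F : A → Dt K m => ∀ u, ok (F u)),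
                B j * (‖∑ p, tot φ F p * G j p‖ * ‖∑ q, tot ψ F q * H j q‖) := by
                refine (norm_sum_le _ _).trans (Finset.sum_le_sum fun F _ => ?_)
                rw [norm_mul, norm_mul]
                exact mul_le_mul_of_nonneg_right (hc1 j F) (by positivity)
            _ ≤ _ := by
                rw [← Finset.mul_sum]
                exact mul_le_mul_of_nonneg_left (cs hφ hψ (G j) (hG1 j) (H j) (hH1 j)) (hB0 j)
  refine e3.trans (le_of_eq ?_)
  rw [← Finset.sum_mul]
  have e5 : ∑ j, B j = 3 ^ Fintype.card A := by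
    rw [hB]
    simp only
    rw [← Finset.sum_div]
    have e6 : ∑ j : A → (K × Λ) × (K × Λ), ∏ u, bd K (j u).1.1 (j u).2.1 =
        (3 * (Fintype.card Λ : ℝ) ^ 2) ^ Fintype.card A := by
      have e7 := Finset.prod_univ_sum (fun _ : A => (Finset.univ : Finset ((K × Λ) × (K × Λ))))
        (fun _ y => bd K y.1.1 y.2.1)
      rw [Fintype.piFinset_univ] at e7
      rw [← e7, Finset.prod_const, Finset.card_univ]
      congr 1
      rw [Fintype.sum_prod_type, Fintype.sum_prod_type]
      simp only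
      have e8 : ∀ b : K, ∀ l : Λ, ∑ z : K × Λ, bd K b z.1 = (∑ b', bd K b b') * Fintype.card Λ := by
        intro b l
        rw [Fintype.sum_prod_type, Finset.sum_mul]
        refine Finset.sum_congr rfl fun b' _ => ?_
        simp [mul_comm]
      rw [Finset.sum_congr rfl fun b _ => Finset.sum_congr rfl fun l _ => e8 b l]
      simp only [Finset.sum_const, Finset.card_univ, nsmul_eq_mul]
      rw [← Finset.mul_sum, ← Finset.sum_mul, sum_bd]
      ring
    rw [e6, mul_pow]
    have : ((Fintype.card Λ : ℝ) ^ 2) ^ Fintype.card A ≠ 0 := by positivity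
    field_simp
  rw [e5, mul_pow]
  ring

end main

end Pool.Agent.Helper41.BT
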